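import Mathlib
import Pool.Agent.Q12.MatSum.Final

/-!
# MP_725651_al: covering all matrices by sums of twisted large subsets

For every real `c > 0` there is an integer `μ`, depending only on `c`, such that for every finite
field `F` with `q` elements, every `n ≥ 1` and all subsets `X_1, ..., X_μ` of `M_n(F)` with
`|X_i| ≥ q ^ (c n ^ 2)` there are invertible matrices `a_i, b_i` with
`a_1 X_1 b_1 + ... + a_μ X_μ b_μ = M_n(F)`.
-/

namespace Pool.Agent.Results.MP_725651_al.TwistedSums

universe u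

theorem result : ∀ c : ℝ, 0 < c → ∃ μ : ℕ, ∀ (F : Type u) [Field F] [Fintype F] (n : ℕ), 1 ≤ n →
    ∀ X : Fin μ → Finset (Matrix (Fin n) (Fin n) F),
      (∀ i, (Fintype.card F : ℝ) ^ (c * (n : ℝ) ^ 2) ≤ ((X i).card : ℝ)) →
      ∃ a b : Fin μ → GL (Fin n) F, ∀ z : Matrix (Fin n) (Fin n) F,
        ∃ x : Fin μ → Matrix (Fin n) (Fin n) F, (∀ i, x i ∈ X i) ∧
          ∑ i, (a i : Matrix (Fin n) (Fin n) F) * x i * (b i : Matrix (Fin n) (Fin n) F) = z :=
  fun _ hc => Q12.MatSum.covers_main hc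

end Pool.Agent.Results.MP_725651_al.TwistedSums
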